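import Pool.Agent.helper68.AM.SpecX

set_option autoImplicit false

namespace AM

open Pool.Agent.helper72.Sq Matrix

/-- abelianisation -/
def XU_h (x : F2) : ℤ × ℤ := (ab x).toAdd

theorem XU_mul (x y : F2) : XU_h (x * y) = XU_h x + XU_h y := by
  unfold XU_h
  rw [map_mul, toAdd_mul]

theorem XU_inv (x : F2) : XU_h x⁻¹ = -XU_h x := by
  unfold XU_h
  rw [map_inv, toAdd_inv]

theorem XU_ga : XU_h ga = (1, 0) := by
  unfold XU_h ab
  rw [mk2_a]; rfl

theorem XU_gb : XU_h gb = (0, 1) := by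
  unfold XU_h ab
  rw [mk2_b]; rfl

theorem XU_ext {a b : ℤ × ℤ × ℤ × ℤ} (h1 : a.1 = b.1) (h2 : a.2.1 = b.2.1)
    (h3 : a.2.2.1 = b.2.2.1) (h4 : a.2.2.2 = b.2.2.2) : a = b :=
  Prod.ext h1 (Prod.ext h2 (Prod.ext h3 h4))

theorem XU_conj (c x : F2) : XU_h (c * x * c⁻¹) = XU_h x := by
  rw [XU_mul, XU_mul, XU_inv]
  abel

/-- the matrix of a path -/
def XU_nd : List Bool → ℤ × ℤ × ℤ × ℤ
  | [] => (1, 0, 0, 1)
  | true :: w => ((XU_nd w).1 + (XU_nd w).2.1, (XU_nd w).2.1,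
      (XU_nd w).2.2.1 + (XU_nd w).2.2.2, (XU_nd w).2.2.2)
  | false :: w => ((XU_nd w).1, (XU_nd w).1 + (XU_nd w).2.1,
      (XU_nd w).2.2.1, (XU_nd w).2.2.1 + (XU_nd w).2.2.2)

theorem XU_pd (w : List Bool) : ∀ x : F2 × F2,
    XU_h (pd w x).1 = (XU_nd w).1 • XU_h x.1 + (XU_nd w).2.1 • XU_h x.2 ∧
    XU_h (pd w x).2 = (XU_nd w).2.2.1 • XU_h x.1 + (XU_nd w).2.2.2 • XU_h x.2 := by
  induction w with
  | nil => intro x; simp [pd, XU_nd]
  | cons b w ih =>
    intro x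
    cases b with
    | true =>
      have := ih (x.1, x.1 * x.2)
      simp only [pd, XU_nd]
      rw [this.1, this.2]
      simp only [XU_mul, smul_add, add_smul]
      constructor <;> abel
    | false =>
      have := ih (x.1 * x.2, x.2)
      simp only [pd, XU_nd]
      rw [this.1, this.2]
      simp only [XU_mul, smul_add, add_smul]
      constructor <;> abel

theorem XU_pos (w : List Bool) : 0 ≤ (XU_nd w).1 ∧ 0 ≤ (XU_nd w).2.1 ∧ 0 ≤ (XU_nd w).2.2.1 ∧
    0 ≤ (XU_nd w).2.2.2 ∧ (XU_nd w).1 * (XU_nd w).2.2.2 - (XU_nd w).2.1 * (XU_nd w).2.2.1 = 1 := by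
  induction w with
  | nil => simp [XU_nd]
  | cons b w ih =>
    obtain ⟨h1, h2, h3, h4, h5⟩ := ih
    cases b with
    | true =>
      simp only [XU_nd]
      refine ⟨by omega, by omega, by omega, by omega, by linear_combination h5⟩
    | false =>
      simp only [XU_nd]
      refine ⟨by omega, by omega, by omega, by omega, by linear_combination h5⟩

theorem XU_facts (w : List Bool) : 1 ≤ (XU_nd w).1 ∧ 0 ≤ (XU_nd w).2.1 ∧ 0 ≤ (XU_nd w).2.2.1 ∧
    1 ≤ (XU_nd w).2.2.2 ∧ ((XU_nd w).2.1 = 0 → (XU_nd w).1 = 1 ∧ (XU_nd w).2.2.2 = 1) := by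
  obtain ⟨h1, h2, h3, h4, h5⟩ := XU_pos w
  have h6 : 0 < (XU_nd w).1 * (XU_nd w).2.2.2 := by
    have := mul_nonneg h2 h3
    linarith
  have h7 : 0 < (XU_nd w).1 := by
    rcases h1.lt_or_eq with h | h
    · exact h
    · rw [← h, zero_mul] at h6; exact absurd h6 (lt_irrefl _)
  have h8 : 0 < (XU_nd w).2.2.2 := by
    rcases h4.lt_or_eq with h | h
    · exact h
    · rw [← h, mul_zero] at h6; exact absurd h6 (lt_irrefl _)
  refine ⟨h7, h2, h3, h8, fun h => ?_⟩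
  rw [h, zero_mul, sub_zero] at h5
  have h9 := Int.eq_one_or_neg_one_of_mul_eq_one h5
  have h10 : (XU_nd w).1 = 1 := by omega
  rw [h10, one_mul] at h5
  exact ⟨h10, h5⟩

theorem XU_inj : ∀ w w' : List Bool, XU_nd w = XU_nd w' → w = w' := by
  intro w
  induction w with
  | nil =>
    intro w' h
    cases w' with
    | nil => rfl
    | cons b w' =>
      exfalso
      obtain ⟨h1, h2, h3, h4, h5⟩ := XU_facts w'
      cases b <;> simp only [XU_nd, Prod.mk.injEq] at h <;> omega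
  | cons b w ih =>
    intro w' h
    obtain ⟨h1, h2, h3, h4, h5⟩ := XU_facts w
    cases w' with
    | nil =>
      exfalso
      cases b <;> simp only [XU_nd, Prod.mk.injEq] at h <;> omega
    | cons b' w' =>
      obtain ⟨h1', h2', h3', h4', h5'⟩ := XU_facts w'
      cases b <;> cases b' <;> simp only [XU_nd, Prod.mk.injEq] at h
      · rw [ih w' (XU_ext (by omega) (by omega) (by omega) (by omega))]
      · exfalso; omega
      · exfalso; omega
      · rw [ih w' (XU_ext (by omega) (by omega) (by omega) (by omega))]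

/-- the four integers of an index -/
def XU_v (ε : Bool) (w : List Bool) (τ : ℕ) : (ℤ × ℤ) × (ℤ × ℤ) :=
  match ε, τ with
  | true, 0 => (((XU_nd w).1, (XU_nd w).2.1), ((XU_nd w).2.2.1, (XU_nd w).2.2.2))
  | true, 1 => (((XU_nd w).2.2.1, (XU_nd w).2.2.2), (-(XU_nd w).1, -(XU_nd w).2.1))
  | true, 2 => ((-(XU_nd w).1, -(XU_nd w).2.1), (-(XU_nd w).2.2.1, -(XU_nd w).2.2.2))
  | true, _ => ((-(XU_nd w).2.2.1, -(XU_nd w).2.2.2), ((XU_nd w).1, (XU_nd w).2.1))
  | false, 0 => ((-(XU_nd w).2.1, (XU_nd w).1), (-(XU_nd w).2.2.2, (XU_nd w).2.2.1))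
  | false, 1 => ((-(XU_nd w).2.2.2, (XU_nd w).2.2.1), ((XU_nd w).2.1, -(XU_nd w).1))
  | false, 2 => (((XU_nd w).2.1, -(XU_nd w).1), ((XU_nd w).2.2.2, -(XU_nd w).2.2.1))
  | false, _ => (((XU_nd w).2.2.2, -(XU_nd w).2.2.1), (-(XU_nd w).2.1, (XU_nd w).1))

theorem XU_pr (ε : Bool) (w : List Bool) (τ : Fin 4) :
    (XU_h (pr (ε, w, τ)).1, XU_h (pr (ε, w, τ)).2) = XU_v ε w τ.val := by
  obtain ⟨h1, h2⟩ := XU_pd w (rootp ε)
  have h3 : XU_h (rootp ε).1 = if ε then (1, 0) else (0, 1) := by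
    cases ε
    · simp [rootp, XU_gb]
    · simp [rootp, XU_ga]
  have h4 : XU_h (rootp ε).2 = if ε then (0, 1) else (-1, 0) := by
    cases ε
    · simp [rootp, XU_inv, XU_ga]
    · simp [rootp, XU_gb]
  rw [h3, h4] at h1 h2
  have h5 : XU_h (pd w (rootp ε)).1 = if ε then ((XU_nd w).1, (XU_nd w).2.1) else
      (-(XU_nd w).2.1, (XU_nd w).1) := by
    rw [h1]; cases ε <;> simp
  have h6 : XU_h (pd w (rootp ε)).2 = if ε then ((XU_nd w).2.2.1, (XU_nd w).2.2.2) else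
      (-(XU_nd w).2.2.2, (XU_nd w).2.2.1) := by
    rw [h2]; cases ε <;> simp
  fin_cases τ
  · cases ε <;> simp [pr, XU_v, h5, h6]
  · cases ε <;> simp [pr, qt, XU_v, XU_inv, h5, h6]
  · cases ε
    · simp [pr, qt, XU_v, XU_inv, h5, h6]
    · simp [pr, qt, XU_v, XU_inv, h5, h6]; rfl
  · cases ε
    · simp [pr, qt, XU_v, XU_inv, h5, h6]
    · simp [pr, qt, XU_v, XU_inv, h5, h6]; rfl

theorem XU : XU_stmt := by
  rintro ⟨ε, w, τ⟩ ⟨ε', w', τ'⟩ ⟨y, ⟨c, hc1, hc2⟩, ⟨c', hc1', hc2'⟩⟩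
  have e1 := XU_pr ε w τ
  have e2 := XU_pr ε' w' τ'
  have e3 : XU_v ε w τ.val = XU_v ε' w' τ'.val := by
    rw [← e1, ← e2]
    have a1 := congrArg XU_h hc1
    have a2 := congrArg XU_h hc2
    have b1 := congrArg XU_h hc1'
    have b2 := congrArg XU_h hc2'
    rw [XU_conj] at a1 a2 b1 b2
    rw [← a1, ← a2, ← b1, ← b2]
  obtain ⟨h1, h2, h3, h4, h5⟩ := XU_facts w
  obtain ⟨h1', h2', h3', h4', h5'⟩ := XU_facts w'
  have key : (ε = ε' ∧ τ = τ' ∧ XU_nd w = XU_nd w') ∨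
      (XU_nd w = XU_nd [] ∧ XU_nd w' = XU_nd []) := by
    cases ε <;> cases ε' <;> fin_cases τ <;> fin_cases τ' <;>
      simp only [XU_v, Prod.mk.injEq] at e3 <;>
      first
        | (exfalso; omega)
        | exact Or.inl ⟨rfl, rfl, XU_ext (by omega) (by omega) (by omega) (by omega)⟩
        | exact Or.inr ⟨XU_ext (by simp only [XU_nd]; omega) (by simp only [XU_nd]; omega)
            (by simp only [XU_nd]; omega) (by simp only [XU_nd]; omega),
            XU_ext (by simp only [XU_nd]; omega) (by simp only [XU_nd]; omega)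
            (by simp only [XU_nd]; omega) (by simp only [XU_nd]; omega)⟩
  rcases key with ⟨rfl, rfl, h⟩ | ⟨h, h'⟩
  · left
    rw [XU_inj w w' h]
  · right
    exact ⟨XU_inj w [] h, XU_inj w' [] h'⟩

end AM
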